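import Mathlib

open Set Metric Filter Topology Complex
open scoped ComplexConjugate

namespace Pool.Agent.Results.MP_4b0b35_an.Quasinilpotent

/-- The Hardy space `H²`, identified with the space `ℓ²` of Taylor coefficient sequences. -/
abbrev H2 : Type := lp (fun _ : ℕ => ℂ) 2

/-- The value at `z` of the analytic function with Taylor coefficients `a`. -/
noncomputable def ev (a : H2) (z : ℂ) : ℂ := ∑' n, a n * z ^ n

/-- `T` is the weighted composition operator `f ↦ ψ · (f ∘ φ)`. -/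
def IsWeightedComp (T : H2 →L[ℂ] H2) (ψ φ : ℂ → ℂ) : Prop :=
  ∀ (a : H2) (z : ℂ), ‖z‖ < 1 → ev (T a) z = ψ z * ev a (φ z)

noncomputable def mb (a z : ℂ) : ℂ := (a - z) / (1 - conj a * z)

theorem den_ne {a z : ℂ} (ha : ‖a‖ < 1) (hz : ‖z‖ < 1) : 1 - conj a * z ≠ 0 := by
  intro h
  have h1 : conj a * z = 1 := by linear_combination -h
  have := congrArg norm h1
  rw [norm_mul, Complex.norm_conj, norm_one] at this
  nlinarith [norm_nonneg a, norm_nonneg z]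

theorem ident (a z : ℂ) :
    ‖1 - conj a * z‖ ^ 2 - ‖a - z‖ ^ 2 = (1 - ‖a‖ ^ 2) * (1 - ‖z‖ ^ 2) := by
  simp only [← Complex.normSq_eq_norm_sq, Complex.normSq_apply]
  simp
  ring

theorem one_sub_pos {z : ℂ} (hz : ‖z‖ < 1) : 0 < 1 - ‖z‖ ^ 2 := by nlinarith [norm_nonneg z]

theorem one_sub_mb {a z : ℂ} (ha : ‖a‖ < 1) (hz : ‖z‖ < 1) :
    1 - ‖mb a z‖ ^ 2 = (1 - ‖a‖ ^ 2) * (1 - ‖z‖ ^ 2) / ‖1 - conj a * z‖ ^ 2 := by
  have := norm_ne_zero_iff.2 (den_ne ha hz)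
  rw [← ident, mb, norm_div, div_pow, sub_div, div_self (pow_ne_zero 2 this)]

theorem mb_lt {a z : ℂ} (ha : ‖a‖ < 1) (hz : ‖z‖ < 1) : ‖mb a z‖ < 1 := by
  have h := one_sub_mb ha hz
  have := norm_pos_iff.2 (den_ne ha hz)
  have : 0 < (1 - ‖a‖ ^ 2) * (1 - ‖z‖ ^ 2) / ‖1 - conj a * z‖ ^ 2 :=
    div_pos (mul_pos (one_sub_pos ha) (one_sub_pos hz)) (by positivity)
  nlinarith [norm_nonneg (mb a z)]

theorem mb_mb {a z : ℂ} (ha : ‖a‖ < 1) (hz : ‖z‖ < 1) : mb a (mb a z) = z := by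
  have h1 := den_ne ha hz
  have h2 := den_ne ha (mb_lt ha hz)
  have h3 := den_ne ha ha
  have h4 : mb a z * (1 - conj a * z) = a - z := div_mul_cancel₀ _ h1
  rw [mb, div_eq_iff h2]
  linear_combination -h4

theorem mb_diff {a : ℂ} (ha : ‖a‖ < 1) : DifferentiableOn ℂ (mb a) (ball 0 1) := by
  intro z hz
  have := den_ne ha (mem_ball_zero_iff.1 hz)
  unfold mb
  apply DifferentiableAt.differentiableWithinAt
  fun_prop (disch := assumption)

section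
variable {φ : ℂ → ℂ} (hφ : DifferentiableOn ℂ φ (ball 0 1)) (hm : MapsTo φ (ball 0 1) (ball 0 1))
include hφ hm

theorem conj_map {a : ℂ} (ha : ‖a‖ < 1) :
    DifferentiableOn ℂ (mb (φ a) ∘ φ ∘ mb a) (ball 0 1) ∧
      MapsTo (mb (φ a) ∘ φ ∘ mb a) (ball 0 1) (closedBall 0 1) ∧ (mb (φ a) ∘ φ ∘ mb a) 0 = 0 := by
  have hb : ‖φ a‖ < 1 := mem_ball_zero_iff.1 (hm (mem_ball_zero_iff.2 ha))
  have m1 : ∀ {b : ℂ}, ‖b‖ < 1 → MapsTo (mb b) (ball 0 1) (ball 0 1) := fun hb z hz =>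
    mem_ball_zero_iff.2 (mb_lt hb (mem_ball_zero_iff.1 hz))
  refine ⟨(mb_diff hb).comp (hφ.comp (mb_diff ha) (m1 ha)) (hm.comp (m1 ha)),
    ((m1 hb).comp (hm.comp (m1 ha))).mono_right ball_subset_closedBall, by simp [mb]⟩

theorem pick {a z : ℂ} (ha : ‖a‖ < 1) (hz : ‖z‖ < 1) : ‖mb (φ a) (φ z)‖ ≤ ‖mb a z‖ := by
  obtain ⟨h1, h2, h3⟩ := conj_map hφ hm ha
  have := Complex.norm_le_norm_of_mapsTo_ball h1 h2 h3 (mb_lt ha hz)
  simpa [mb_mb ha hz] using this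

theorem pick_eq {a z : ℂ} (ha : ‖a‖ < 1) (hz : ‖z‖ < 1) (hne : z ≠ a)
    (he : ‖mb (φ a) (φ z)‖ = ‖mb a z‖) :
    ∃ C : ℝ, 0 < C ∧ ∀ w, ‖w‖ < 1 → 1 - ‖φ w‖ ^ 2 ≤ C * (1 - ‖w‖ ^ 2) := by
  obtain ⟨h1, h2, h3⟩ := conj_map hφ hm ha
  have hb : ‖φ a‖ < 1 := mem_ball_zero_iff.1 (hm (mem_ball_zero_iff.2 ha))
  have h0 : mb a z ≠ 0 := div_ne_zero (sub_ne_zero.2 hne.symm) (den_ne ha hz)
  have hd : ‖dslope (mb (φ a) ∘ φ ∘ mb a) 0 (mb a z)‖ = 1 := by
    rw [dslope_of_ne _ h0, slope_def_field, h3]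
    simp [mb_mb ha hz, he, h0]
  have h4 := Complex.affine_of_mapsTo_ball_of_norm_dslope_eq_div h1 (R₂ := 1) (by rwa [h3])
    (mem_ball_zero_iff.2 (mb_lt ha hz)) (by simpa using hd)
  have p1 := one_sub_pos hb
  have p2 : 0 < 1 - ‖a‖ := by linarith
  refine ⟨4 / ((1 - ‖φ a‖ ^ 2) * (1 - ‖a‖) ^ 2), by positivity, fun w hw => ?_⟩
  have hw' : ‖φ w‖ < 1 := mem_ball_zero_iff.1 (hm (mem_ball_zero_iff.2 hw))
  have h5 := congrArg norm (h4 (mem_ball_zero_iff.2 (mb_lt ha hw)))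
  simp only [h3, zero_add, sub_zero, norm_smul, hd, mul_one] at h5
  simp only [Function.comp_apply, mb_mb ha hw] at h5
  have h6 := one_sub_mb hb hw'
  rw [h5, one_sub_mb ha hw] at h6
  have d1 : 1 - ‖a‖ ≤ ‖1 - conj a * w‖ := by
    have := norm_sub_norm_le (1 : ℂ) (conj a * w)
    rw [norm_mul, Complex.norm_conj, norm_one] at this
    nlinarith [norm_nonneg a]
  have d2 : ‖1 - conj (φ a) * φ w‖ ≤ 2 := by
    have := norm_sub_le (1 : ℂ) (conj (φ a) * φ w)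
    rw [norm_mul, Complex.norm_conj, norm_one] at this
    nlinarith [norm_nonneg (φ a), norm_nonneg (φ w)]
  have d3 := norm_pos_iff.2 (den_ne hb hw')
  have p3 := one_sub_pos hw
  have p4 := one_sub_pos hw'
  have e1 : (1 - ‖φ a‖ ^ 2) * (1 - ‖φ w‖ ^ 2) / 4 ≤
      (1 - ‖φ a‖ ^ 2) * (1 - ‖φ w‖ ^ 2) / ‖1 - conj (φ a) * φ w‖ ^ 2 :=
    div_le_div_of_nonneg_left (by positivity) (by positivity) (by nlinarith)
  have e2 : (1 - ‖a‖ ^ 2) * (1 - ‖w‖ ^ 2) / ‖1 - conj a * w‖ ^ 2 ≤ (1 - ‖w‖ ^ 2) / (1 - ‖a‖) ^ 2 :=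
    div_le_div₀ p3.le (by nlinarith [sq_nonneg ‖a‖]) (by positivity) (by gcongr)
  have e3 := e1.trans (h6.symm.le.trans e2)
  rw [div_le_div_iff₀ (by norm_num) (by positivity)] at e3
  rw [div_mul_eq_mul_div, le_div_iff₀ (by positivity)]
  linarith

theorem orbit (hfix : ∀ p, ‖p‖ < 1 → φ p ≠ p) {z : ℂ} (hz : ‖z‖ < 1) :
    (∀ r < 1, ∀ᶠ n in atTop, r ≤ ‖φ^[n] z‖) ∨
      ∃ C : ℝ, 0 < C ∧ ∀ w, ‖w‖ < 1 → 1 - ‖φ w‖ ^ 2 ≤ C * (1 - ‖w‖ ^ 2) := by
  by_cases h : ∀ r < 1, ∀ᶠ n in atTop, r ≤ ‖φ^[n] z‖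
  · exact Or.inl h
  right
  push Not at h
  obtain ⟨r, hr, h⟩ := h
  have hm' : ∀ w, ‖w‖ < 1 → ‖φ w‖ < 1 := fun w hw =>
    mem_ball_zero_iff.1 (hm (mem_ball_zero_iff.2 hw))
  have hn : ∀ n, ‖φ^[n] z‖ < 1 := fun n =>
    mem_ball_zero_iff.1 (hm.iterate n (mem_ball_zero_iff.2 hz))
  obtain ⟨w, hw, s, hs, hsw⟩ := (isCompact_closedBall (0 : ℂ) r).tendsto_subseq'
    (x := fun n => φ^[n] z) (h.mono fun n hn => mem_closedBall_zero_iff.2 hn.le)
  have hw1 : ‖w‖ < 1 := (mem_closedBall_zero_iff.1 hw).trans_lt hr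
  set D : ℂ → ℝ := fun w => ‖mb w (φ w)‖ with hD
  have hc : ∀ w, ‖w‖ < 1 → ContinuousAt φ w := fun w hw =>
    (hφ.differentiableAt (isOpen_ball.mem_nhds (mem_ball_zero_iff.2 hw))).continuousAt
  have hDc : ∀ w, ‖w‖ < 1 → ContinuousAt D w := by
    intro w hw
    have h1 := hc w hw
    exact ((continuousAt_id.sub h1).div (continuousAt_const.sub
      (Complex.continuous_conj.continuousAt.mul h1)) (den_ne hw (hm' w hw))).norm
  have hanti : Antitone fun n => D (φ^[n] z) := antitone_nat_of_succ_le fun n => by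
    rw [Function.iterate_succ_apply']
    exact pick hφ hm (hn n) (hm' _ (hn n))
  have hlim := tendsto_atTop_ciInf hanti ⟨0, by rintro _ ⟨n, rfl⟩; exact norm_nonneg _⟩
  have t1 := (hDc w hw1).tendsto.comp hsw
  have t2 := (hDc _ (hm' w hw1)).tendsto.comp ((hc w hw1).tendsto.comp hsw)
  have u1 := tendsto_nhds_unique t1 (hlim.comp hs.tendsto_atTop)
  have u2 := tendsto_nhds_unique t2 ((hlim.comp
    ((tendsto_add_atTop_nat 1).comp hs.tendsto_atTop)).congr fun n => by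
      simp [Function.iterate_succ_apply'])
  exact pick_eq hφ hm hw1 (hm' w hw1) (hfix w hw1) (u2.trans u1.symm)

end

theorem geo {z : ℂ} (hz : ‖z‖ < 1) :
    HasSum (fun n : ℕ => ‖(conj z) ^ n‖ ^ (2 : ENNReal).toReal) (1 - ‖z‖ ^ 2)⁻¹ := by
  have := hasSum_geometric_of_lt_one (sq_nonneg ‖z‖) (by linarith [one_sub_pos hz])
  convert this using 2 with n
  simp [← pow_mul, mul_comm]

noncomputable def ker (z : ℂ) (hz : ‖z‖ < 1) : H2 :=
  ⟨fun n => (conj z) ^ n, memℓp_gen (geo hz).summable⟩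

theorem ker_norm {z : ℂ} (hz : ‖z‖ < 1) : ‖ker z hz‖ ^ 2 = (1 - ‖z‖ ^ 2)⁻¹ := by
  have := (lp.hasSum_norm (p := 2) (by norm_num) (ker z hz)).unique (geo hz)
  simpa using this

theorem hasSum_ev (a : H2) {z : ℂ} (hz : ‖z‖ < 1) :
    HasSum (fun n => a n * z ^ n) (inner ℂ (ker z hz) a) := by
  have := lp.hasSum_inner (𝕜 := ℂ) (ker z hz) a
  have e : ∀ n, inner ℂ (ker z hz n) (a n) = a n * z ^ n := fun n => by
    change inner ℂ ((conj z) ^ n) (a n) = _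
    simp
  simpa only [e] using this

theorem ev_eq (a : H2) {z : ℂ} (hz : ‖z‖ < 1) : ev a z = inner ℂ (ker z hz) a :=
  (hasSum_ev a hz).tsum_eq

theorem ev_bound (a : H2) {z : ℂ} (hz : ‖z‖ < 1) : (1 - ‖z‖ ^ 2) * ‖ev a z‖ ^ 2 ≤ ‖a‖ ^ 2 := by
  have h1 : ‖ev a z‖ ^ 2 ≤ (‖ker z hz‖ * ‖a‖) ^ 2 := by
    rw [ev_eq a hz]; exact pow_le_pow_left₀ (norm_nonneg _) (norm_inner_le_norm _ _) 2
  rw [mul_pow, ker_norm] at h1
  have := one_sub_pos hz
  calc _ ≤ (1 - ‖z‖ ^ 2) * ((1 - ‖z‖ ^ 2)⁻¹ * ‖a‖ ^ 2) := mul_le_mul_of_nonneg_left h1 this.le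
    _ = _ := by field_simp

theorem ev_split (a b : H2) {z : ℂ} (hz : ‖z‖ < 1) :
    (1 - ‖z‖ ^ 2) * ‖ev a z‖ ^ 2 ≤ 2 * ((1 - ‖z‖ ^ 2) * ‖ev b z‖ ^ 2) + 2 * ‖a - b‖ ^ 2 := by
  have h1 := ev_bound (a - b) hz
  have h2 : ev a z = ev b z + ev (a - b) z := by simp [ev_eq _ hz, inner_sub_right]
  have h3 : ‖ev a z‖ ^ 2 ≤ 2 * ‖ev b z‖ ^ 2 + 2 * ‖ev (a - b) z‖ ^ 2 := by
    have := pow_le_pow_left₀ (norm_nonneg _) (norm_add_le (ev b z) (ev (a - b) z)) 2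
    rw [h2]; nlinarith [sq_nonneg (‖ev b z‖ - ‖ev (a - b) z‖)]
  have := mul_le_mul_of_nonneg_left h3 (one_sub_pos hz).le
  linarith

theorem ev_small (a : H2) {ε : ℝ} (hε : 0 < ε) :
    ∀ᶠ r in 𝓝[<] (1 : ℝ), ∀ z : ℂ, r ≤ ‖z‖ → ‖z‖ < 1 → (1 - ‖z‖ ^ 2) * ‖ev a z‖ ^ 2 ≤ ε := by
  have h := lp.hasSum_single (p := 2) (by norm_num) a
  obtain ⟨s, hs⟩ := (h.eventually (ball_mem_nhds a
    (show 0 < Real.sqrt (ε / 4) by positivity))).exists
  set b := ∑ i ∈ s, lp.single 2 i (a i) with hb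
  set M := ∑ i ∈ s, ‖a i‖ with hM
  have hbM : ∀ z : ℂ, ‖z‖ < 1 → ‖ev b z‖ ≤ M := by
    intro z hz
    rw [ev_eq _ hz, hb, inner_sum]
    refine norm_sum_le_of_le _ fun i _ => ?_
    rw [lp.inner_single_right]
    refine (norm_inner_le_norm _ _).trans ?_
    have : ‖ker z hz i‖ ≤ 1 := by
      simp only [ker, norm_pow, Complex.norm_conj]; exact pow_le_one₀ (norm_nonneg _) hz.le
    exact mul_le_of_le_one_left (norm_nonneg _) this
  have hab : ‖a - b‖ ^ 2 ≤ ε / 4 := by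
    rw [dist_comm, dist_eq_norm] at hs
    have := pow_le_pow_left₀ (norm_nonneg _) hs.le 2
    rwa [Real.sq_sqrt (by positivity)] at this
  have ht : Tendsto (fun r : ℝ => (1 - r ^ 2) * M ^ 2) (𝓝[<] 1) (𝓝 0) := by
    have : Continuous fun r : ℝ => (1 - r ^ 2) * M ^ 2 := by fun_prop
    simpa using (this.tendsto 1).mono_left nhdsWithin_le_nhds
  filter_upwards [ht.eventually (ge_mem_nhds (show 0 < ε / 4 by positivity)),
    Ioo_mem_nhdsLT (show (0 : ℝ) < 1 by norm_num)] with r hr hr' z h1 h2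
  have h3 := ev_split a b h2
  have h4 : (1 - ‖z‖ ^ 2) * ‖ev b z‖ ^ 2 ≤ (1 - r ^ 2) * M ^ 2 :=
    mul_le_mul (by nlinarith [hr'.1]) (pow_le_pow_left₀ (norm_nonneg _) (hbM z h2) 2)
      (by positivity) (by nlinarith [hr'.1, hr'.2])
  linarith

theorem kernel_est {T : H2 →L[ℂ] H2} {ψ φ : ℂ → ℂ} (hm : MapsTo φ (ball 0 1) (ball 0 1))
    (hT : IsWeightedComp T ψ φ) (hc : IsCompactOperator T) {ε : ℝ} (hε : 0 < ε) :
    ∀ᶠ r in 𝓝[<] (1 : ℝ), ∀ z : ℂ, r ≤ ‖z‖ → ‖z‖ < 1 →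
      ‖ψ z‖ ^ 2 * (1 - ‖z‖ ^ 2) ≤ ε * (1 - ‖φ z‖ ^ 2) := by
  obtain ⟨K, hK, hK'⟩ := hc.image_closedBall_subset_compact 1
  obtain ⟨t, ht, hcov⟩ := Metric.totallyBounded_iff.1 hK.totallyBounded (Real.sqrt (ε / 4))
    (by positivity)
  filter_upwards [(eventually_all_finite ht).2 fun b _ => ev_small b (show 0 < ε / 4 by positivity)]
    with r hr z h1 h2
  have hw : ‖φ z‖ < 1 := mem_ball_zero_iff.1 (hm (mem_ball_zero_iff.2 h2))
  have hp := one_sub_pos hw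
  set c := Real.sqrt (1 - ‖φ z‖ ^ 2) with hc'
  have hc2 : c ^ 2 = 1 - ‖φ z‖ ^ 2 := Real.sq_sqrt hp.le
  have hc0 : 0 < c := Real.sqrt_pos.2 hp
  have hk := ker_norm hw
  set u : H2 := (c : ℂ) • ker (φ z) hw with hu
  have hu1 : ‖u‖ ≤ 1 := by
    apply le_of_eq
    have : ‖u‖ ^ 2 = 1 := by
      rw [hu, norm_smul, mul_pow, hk, Complex.norm_real, Real.norm_eq_abs, sq_abs, hc2]; field_simp
    nlinarith [norm_nonneg u]
  have hev : ‖ev u (φ z)‖ ^ 2 = (1 - ‖φ z‖ ^ 2)⁻¹ := by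
    rw [ev_eq _ hw, hu, inner_smul_right, inner_self_eq_norm_sq_to_K, norm_mul, mul_pow,
      Complex.norm_real, Real.norm_eq_abs, sq_abs, hc2]
    simp only [norm_pow, RCLike.norm_ofReal, sq_abs, hk]
    field_simp
  obtain ⟨b, hb, hb'⟩ := mem_iUnion₂.1 (hcov (hK' ⟨u, mem_closedBall_zero_iff.2 hu1, rfl⟩))
  have h3 := ev_split (T u) b h2
  have h4 := hr b hb z h1 h2
  have hab : ‖T u - b‖ ^ 2 ≤ ε / 4 := by
    rw [mem_ball, dist_eq_norm] at hb'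
    have := pow_le_pow_left₀ (norm_nonneg _) hb'.le 2
    rwa [Real.sq_sqrt (by positivity)] at this
  rw [hT u z h2, norm_mul, mul_pow, hev] at h3
  have h5 : (1 - ‖z‖ ^ 2) * (‖ψ z‖ ^ 2 * (1 - ‖φ z‖ ^ 2)⁻¹) ≤ ε := by linarith
  rw [← mul_assoc, ← div_eq_mul_inv, div_le_iff₀ hp] at h5
  linarith

theorem exists_ev_ne {a : H2} (ha : a ≠ 0) : ∃ z : ℂ, ‖z‖ < 1 ∧ ev a z ≠ 0 := by
  by_contra h
  push Not at h
  have : HasFPowerSeriesAt (0 : ℂ → ℂ) (FormalMultilinearSeries.ofScalars ℂ (fun n => a n)) 0 := by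
    rw [hasFPowerSeriesAt_iff]
    filter_upwards [ball_mem_nhds (0 : ℂ) one_pos] with z hz
    have hz' := mem_ball_zero_iff.1 hz
    have h1 := hasSum_ev a hz'
    rw [← ev_eq, h z hz'] at h1
    simpa [mul_comm] using h1
  have h2 := this.eq_zero
  apply ha
  ext n
  have := congrArg (fun p => FormalMultilinearSeries.coeff p n) h2
  simp only [FormalMultilinearSeries.coeff_ofScalars] at this
  exact this

theorem not_fd : ¬ FiniteDimensional ℂ H2 := by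
  intro h
  have : LinearIndependent ℂ (fun n : ℕ => (lp.single 2 n (1 : ℂ) : H2)) := by
    apply Orthonormal.linearIndependent
    rw [orthonormal_iff_ite]
    intro i j
    rw [lp.inner_single_left]
    by_cases hij : i = j
    · subst hij; simp
    · simp [hij, Pi.single_eq_of_ne hij]
  haveI := this.finite
  exact not_finite ℕ

theorem result (ψ φ : ℂ → ℂ) (hψ : DifferentiableOn ℂ ψ (ball 0 1))
    (hφ : DifferentiableOn ℂ φ (ball 0 1)) (hm : MapsTo φ (ball 0 1) (ball 0 1))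
    (hfix : ∀ p ∈ ball (0 : ℂ) 1, φ p ≠ p) (T : H2 →L[ℂ] H2) (hT : IsWeightedComp T ψ φ)
    (hc : IsCompactOperator T) : spectrum ℂ T = {0} := by
  ext μ
  rw [mem_singleton_iff]
  constructor
  · intro hμ
    by_contra h0
    obtain ⟨a, ha⟩ := ((hc.hasEigenvalue_iff_mem_spectrum h0).2 hμ).exists_hasEigenvector
    have ha1 : T a = μ • a := ha.apply_eq_smul
    have hf : ∀ z : ℂ, ‖z‖ < 1 → ψ z * ev a (φ z) = μ * ev a z := fun z hz => by
      rw [← hT a z hz, ha1, ev_eq _ hz, ev_eq _ hz, inner_smul_right]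
    obtain ⟨z, hz, hz0⟩ := exists_ev_ne ha.2
    have hn : ∀ n, ‖φ^[n] z‖ < 1 := fun n =>
      mem_ball_zero_iff.1 (hm.iterate n (mem_ball_zero_iff.2 hz))
    have hμ0 : 0 < ‖μ‖ ^ 2 := by positivity
    rcases orbit hφ hm (fun p hp => hfix p (mem_ball_zero_iff.2 hp)) hz with h | ⟨C, hC, h⟩
    · obtain ⟨r, hr, hr1⟩ := ((kernel_est hm hT hc (show 0 < ‖μ‖ ^ 2 / 2 by positivity)).and
        self_mem_nhdsWithin).exists
      obtain ⟨N, hN⟩ := eventually_atTop.1 (h r hr1)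
      set G : ℕ → ℝ := fun n => (1 - ‖φ^[n] z‖ ^ 2) * ‖ev a (φ^[n] z)‖ ^ 2 with hG
      have hne : ∀ n, ev a (φ^[n] z) ≠ 0 := by
        intro n
        induction n with
        | zero => exact hz0
        | succ k ih =>
          rw [Function.iterate_succ_apply']
          intro h
          have := hf _ (hn k)
          rw [h, mul_zero] at this
          exact mul_ne_zero h0 ih this.symm
      have hG0 : 0 < G N := mul_pos (one_sub_pos (hn N)) (by have := hne N; positivity)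
      have hstep : ∀ n, N ≤ n → 2 * G n ≤ G (n + 1) := by
        intro n hn'
        have h1 := hr _ (hN n hn') (hn n)
        have h2 := congrArg (fun x => ‖x‖ ^ 2) (hf _ (hn n))
        simp only [norm_mul, mul_pow] at h2
        simp only [hG, Function.iterate_succ_apply']
        have h3 := mul_le_mul_of_nonneg_right h1 (sq_nonneg ‖ev a (φ (φ^[n] z))‖)
        apply le_of_mul_le_mul_left _ hμ0
        have h4 := congrArg (fun x => x * (1 - ‖φ^[n] z‖ ^ 2)) h2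
        linarith
      have hgrow : ∀ k : ℕ, 2 ^ k * G N ≤ G (N + k) := by
        intro k
        induction k with
        | zero => simp
        | succ k ih =>
          have := hstep (N + k) (by omega)
          rw [pow_succ, ← add_assoc]; linarith
      obtain ⟨k, hk⟩ := pow_unbounded_of_one_lt (‖a‖ ^ 2 / G N) (show (1 : ℝ) < 2 by norm_num)
      rw [div_lt_iff₀ hG0] at hk
      exact absurd ((hgrow k).trans (ev_bound a (hn _))) (not_le.2 hk)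
    · have hψ0 : ‖ψ z‖ ≤ 0 := by
        refine le_of_forall_pos_le_add fun δ hδ => ?_
        obtain ⟨r, hr, hr1, hr2⟩ := ((kernel_est hm hT hc (show 0 < δ ^ 2 / C by positivity)).and
          (Ioo_mem_nhdsLT hz)).exists
        have hr0 : 0 < r := (norm_nonneg z).trans_lt hr1
        rw [zero_add]
        refine Complex.norm_le_of_forall_mem_frontier_norm_le (U := ball 0 r) isBounded_ball
          (DifferentiableOn.diffContOnCl (hψ.mono ?_)) ?_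
          (subset_closure (mem_ball_zero_iff.2 hr1))
        · rw [closure_ball _ hr0.ne']; exact closedBall_subset_ball hr2
        · intro w hw
          rw [frontier_ball _ hr0.ne', mem_sphere_zero_iff_norm] at hw
          have hw1 : ‖w‖ < 1 := by rw [hw]; exact hr2
          have h1 := hr w hw.ge hw1
          have h2 := mul_le_mul_of_nonneg_left (h w hw1) (show 0 ≤ δ ^ 2 / C by positivity)
          have h3 : δ ^ 2 / C * (C * (1 - ‖w‖ ^ 2)) = δ ^ 2 * (1 - ‖w‖ ^ 2) := by field_simp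
          have h4 := le_of_mul_le_mul_right (h1.trans (h2.trans h3.le)) (one_sub_pos hw1)
          exact (pow_le_pow_iff_left₀ (norm_nonneg _) hδ.le two_ne_zero).1 h4
      have := hf z hz
      rw [norm_le_zero_iff.1 hψ0, zero_mul] at this
      exact mul_ne_zero h0 hz0 this.symm
  · rintro rfl
    rw [spectrum.zero_mem_iff]
    rintro ⟨u, rfl⟩
    apply not_fd
    rw [← isCompactOperator_id_iff_finiteDimensional (𝕜 := ℂ)]
    have := hc.comp_clm (↑u⁻¹ : H2 →L[ℂ] H2)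
    have e : (⇑(u : H2 →L[ℂ] H2) ∘ ⇑(↑u⁻¹ : H2 →L[ℂ] H2)) = id :=
      funext fun x => congrArg (fun f : H2 →L[ℂ] H2 => f x) u.mul_inv
    rwa [e] at this

end Pool.Agent.Results.MP_4b0b35_an.Quasinilpotent
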